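import Pool.Agent.Helper51.SDL.Goals
import Pool.Agent.Helper51.REC.Asm
import Pool.Agent.Helper42.RD.VAL

/-!
Packet SDL-DET: a character is determined outside a finite set.
-/

set_option autoImplicit false

namespace Pool.Agent.Helper22.SDL.DET

open NumberField Module IsDedekindDomain
open Pool.Agent.Helper51.RP Pool.Agent.Helper51.REC Pool.Agent.Helper16.SD

open Classical in
theorem t : Pool.Agent.Helper51.SDL.S_DET := by
  intro p _ F _ _ S₁ S hfin hsub N θ hθ h0 W hW
  by_cases hW1 : W ∈ S₁
  swap
  · exact h0 W hW1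
  obtain ⟨π, hπ⟩ := W.valuation_exists_uniformizer F
  have hπ0 : π ≠ 0 := by
    intro h
    rw [h, map_zero] at hπ
    exact WithZero.coe_ne_zero hπ.symm
  obtain ⟨v, hv⟩ := k_app p F S₁ hfin (fun W' => if W' = W then Units.mk0 π hπ0 else 1) N
  have hone : ∀ W' ∈ S₁, W' ≠ W → W'.valuation F ((v : F) - 1) < 1 ∧
      W'.valuation F ((v : F) - 1) ≤ W'.valuation F (p : F) ^ N := by
    intro W' hW' hne
    have h := hv W' hW'
    simpa [hne] using h
  have hvW : W.valuation F (v : F) = W.valuation F π := by
    have h := (hv W hW1).1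
    simp only [if_true] at h
    have h1 := Pool.Agent.Helper42.RD.val_eq_one_of_sub W h
    have h2 : (v : F) = ((v : F) * ((Units.mk0 π hπ0)⁻¹ : Fˣ)) * π := by
      rw [Units.val_inv_eq_inv_val, Units.val_mk0, mul_assoc, inv_mul_cancel₀ hπ0, mul_one]
    rw [h2, map_mul, h1, one_mul]
  have hord : ordv W (v : F) = 1 := by
    unfold ordv
    rw [hvW, hπ]
    simp
  have hc : Cong p S N (v : F) := by
    intro W' hW'
    exact (hone W' (hsub hW') (fun h => hW (h ▸ hW'))).2
  have hs := hθ v hc
  unfold dsum at hs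
  rw [finsum_eq_single _ W] at hs
  · rw [hord] at hs
    simpa using hs
  · intro W' hne
    by_cases h1 : W' ∈ S₁
    · have h2 := Pool.Agent.Helper42.RD.val_eq_one_of_sub W' (hone W' h1 hne).1
      have h3 : ordv W' (v : F) = 0 := by
        unfold ordv
        rw [h2]
        simp
      rw [h3]
      simp
    · rw [h0 W' h1, mul_zero]

end Pool.Agent.Helper22.SDL.DET
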